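import Pool.Agent.helper54.UG.Spec

/-!
# ug:FMA. The family of a subspace of nilpotent matrices
-/

set_option autoImplicit false

namespace Pool.Agent.UG

open Matrix Pool.Agent.H48SL

theorem FMA (hCRA : CRA_stmt) : FMA_stmt := by
  intro n H 𝔞 hN hL hS hR
  classical
  let b : Module.Basis (Fin (Module.finrank ℚ 𝔞)) ℚ 𝔞 := Module.finBasis ℚ 𝔞
  set Xb : Fin (Module.finrank ℚ 𝔞) → MQ (n + 1) := fun i => (b i : MQ (n + 1)) with hXb
  have hco : ∀ a : Fin (Module.finrank ℚ 𝔞) → ℚ,
      ((∑ i, a i • b i : 𝔞) : MQ (n + 1)) = ∑ i, a i • Xb i := by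
    intro a
    rw [AddSubmonoidClass.coe_finsetSum]
    rfl
  have hli : ∀ a : Fin (Module.finrank ℚ 𝔞) → ℚ, (∑ i, a i • Xb i) = 0 → a = 0 := by
    intro a ha
    have h1 : ∑ i, a i • b i = 0 := by
      apply Subtype.ext
      rw [hco, ha]
      rfl
    exact funext (Fintype.linearIndependent_iff.1 b.linearIndependent a h1)
  have hmem : ∀ a : Fin (Module.finrank ℚ 𝔞) → ℚ, (∑ i, a i • Xb i) ∈ 𝔞 := by
    intro a
    exact Submodule.sum_mem _ fun i _ => Submodule.smul_mem _ _ (b i).2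
  obtain ⟨c, hc0, hc⟩ := hCRA (n + 1) (Module.finrank ℚ 𝔞) Xb (by
    intro u
    obtain ⟨X, hX, hX0, hXu⟩ := hS u
    have h1 := congrArg Subtype.val (b.sum_repr ⟨X, hX⟩)
    have h2 : (∑ i, (b.repr ⟨X, hX⟩) i • Xb i) = X := (hco _).symm.trans h1
    refine ⟨fun i => b.repr ⟨X, hX⟩ i, ?_, ?_⟩
    · intro h0
      apply hX0
      rw [← h2]
      apply Finset.sum_eq_zero
      intro i _
      have h3 := congrFun h0 i
      simp only [Pi.zero_apply] at h3
      rw [h3, zero_smul]
    · rw [h2]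
      exact hXu)
  refine ⟨fun u => ∑ i, MvPolynomial.eval u (c i) • Xb i, ?_, hc, ?_, ?_, ?_⟩
  · intro i j
    refine ⟨∑ k, c k * MvPolynomial.C (Xb k i j), fun u => ?_⟩
    rw [Matrix.sum_apply, map_sum]
    apply Finset.sum_congr rfl
    intro k _
    rw [map_mul, MvPolynomial.eval_C]
    rfl
  · intro u
    exact hN.nil (hmem _)
  · intro u
    exact hL _ (hmem _)
  · obtain ⟨k, hk⟩ := Function.ne_iff.1 hc0
    have hk1 : c k * MvPolynomial.X 0 ≠ 0 :=
      mul_ne_zero hk (MvPolynomial.X_ne_zero 0)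
    obtain ⟨u, hu⟩ : ∃ u : Fin (n + 1) → ℚ, MvPolynomial.eval u (c k * MvPolynomial.X 0) ≠ 0 := by
      by_contra hcon
      push Not at hcon
      apply hk1
      apply MvPolynomial.funext
      intro u
      rw [hcon u, map_zero]
    rw [map_mul, MvPolynomial.eval_X] at hu
    have hu0 : u 0 ≠ 0 := right_ne_zero_of_mul hu
    have huk : MvPolynomial.eval u (c k) ≠ 0 := left_ne_zero_of_mul hu
    by_contra hcon
    push Not at hcon
    set M : MQ (n + 1) := ∑ i, MvPolynomial.eval u (c i) • Xb i with hM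
    have h1 : M = vecMulVec u (fun j => M 0 j / u 0) := by
      ext i j
      rw [vecMulVec_apply]
      have h2 := hcon u (Pi.single j 1) 0 i
      rw [← hM, mulVec_single_one] at h2
      change u 0 * M i j = u i * M 0 j at h2
      field_simp
      linarith
    have h3 : M = 0 := by
      have h4 := hR u (fun j => M 0 j / u 0) (by rw [← h1]; exact hmem _)
      rw [h1]
      exact h4
    exact huk (congrFun (hli _ h3) k)

end Pool.Agent.UG
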